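import Pool.Agent.J6H36.BSV.Defs2

/-!
# Module P1R: reduced bases
-/

set_option autoImplicit false

universe u

namespace Pool.Agent.J6H33.BSV

open Polynomial IntermediateField Pool.Agent.J6H36.BSV

section

variable {K F : Type u} [Field K] [Field F] [Algebra K F]

theorem int_mem {S : Subalgebra K F} {x : F} (hx : x ∈ S) : IsIntegral S x :=
  isIntegral_algebraMap (R := S) (A := F) (x := ⟨x, hx⟩)

/-- `t⁻ⁿ y` is integral over `K[t⁻¹]` -/
def DD (K : Type u) {F : Type u} [Field K] [Field F] [Algebra K F] (t y : F) (n : ℕ) : Prop :=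
  IsIntegral (Algebra.adjoin K ({t⁻¹} : Set F)) ((t⁻¹) ^ n * y)

variable {t : F}

theorem inv_mem : t⁻¹ ∈ Algebra.adjoin K ({t⁻¹} : Set F) :=
  Algebra.subset_adjoin (Set.mem_singleton _)

theorem self_mem : t ∈ Algebra.adjoin K ({t} : Set F) :=
  Algebra.subset_adjoin (Set.mem_singleton _)

theorem aeval_mem (p : K[X]) : aeval t p ∈ Algebra.adjoin K ({t} : Set F) := by
  rw [Algebra.adjoin_singleton_eq_range_aeval]
  exact ⟨p, rfl⟩

theorem DD.mono {y : F} {n m : ℕ} (h : DD K t y n) (hnm : n ≤ m) : DD K t y m := by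
  have h1 : (t⁻¹) ^ m * y = (t⁻¹) ^ (m - n) * ((t⁻¹) ^ n * y) := by
    rw [← mul_assoc, ← pow_add, Nat.sub_add_cancel hnm]
  unfold DD
  rw [h1]
  exact (int_mem (Subalgebra.pow_mem _ inv_mem _)).mul h

theorem DD.add {y z : F} {n : ℕ} (h : DD K t y n) (h' : DD K t z n) : DD K t (y + z) n := by
  unfold DD
  rw [mul_add]
  exact IsIntegral.add h h'

theorem DD.sub {y z : F} {n : ℕ} (h : DD K t y n) (h' : DD K t z n) : DD K t (y - z) n := by
  unfold DD
  rw [mul_sub]
  exact IsIntegral.sub h h'

theorem DD.zero (n : ℕ) : DD K t 0 n := by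
  unfold DD
  rw [mul_zero]
  exact isIntegral_zero

theorem DD.sum {ι : Type} (s : Finset ι) (f : ι → F) {n : ℕ} (h : ∀ i ∈ s, DD K t (f i) n) :
    DD K t (∑ i ∈ s, f i) n := by
  classical
  induction s using Finset.induction_on with
  | empty => rw [Finset.sum_empty]; exact DD.zero n
  | insert a s ha ih =>
    rw [Finset.sum_insert ha]
    exact (h a (Finset.mem_insert_self _ _)).add
      (ih fun i hi => h i (Finset.mem_insert_of_mem hi))

theorem DD.smul {y : F} {n : ℕ} (h : DD K t y n) (c : K) : DD K t (algebraMap K F c * y) n := by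
  have h1 : (t⁻¹) ^ n * (algebraMap K F c * y) = algebraMap K F c * ((t⁻¹) ^ n * y) := by ring
  unfold DD
  rw [h1]
  exact (int_mem (Subalgebra.algebraMap_mem _ c)).mul h

theorem DD.tpow (ht : t ≠ 0) {y : F} {n : ℕ} (h : DD K t y n) (j : ℕ) :
    DD K t (t ^ j * y) (j + n) := by
  have h1 : (t⁻¹) ^ (j + n) * (t ^ j * y) = (t⁻¹) ^ n * y := by
    rw [pow_add, inv_pow t j]
    field_simp
  unfold DD
  rw [h1]
  exact h

theorem DD.poly (ht : t ≠ 0) {y : F} {a M : ℕ} (h : DD K t y a) (q : K[X])
    (hq : ∀ j ∈ q.support, j + a ≤ M) : DD K t (aeval t q * y) M := by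
  rw [aeval_eq_sum_range, Finset.sum_mul]
  refine DD.sum _ _ fun j _ => ?_
  by_cases hj : q.coeff j = 0
  · rw [hj, zero_smul, zero_mul]
    exact DD.zero M
  · rw [Algebra.smul_def, mul_assoc]
    exact ((h.tpow ht j).smul _).mono (hq j (mem_support_iff.2 hj))

theorem poly_inv_mem (ht : t ≠ 0) (q : K[X]) {N : ℕ} (hN : q.natDegree ≤ N) :
    aeval t q * (t⁻¹) ^ N ∈ Algebra.adjoin K ({t⁻¹} : Set F) := by
  rw [aeval_eq_sum_range, Finset.sum_mul]
  refine Subalgebra.sum_mem _ fun j hj => ?_
  have hj' : j ≤ N := (Nat.lt_succ_iff.1 (Finset.mem_range.1 hj)).trans hN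
  have h1 : q.coeff j • t ^ j * (t⁻¹) ^ N = q.coeff j • (t⁻¹) ^ (N - j) := by
    rw [smul_mul_assoc]
    congr 1
    obtain ⟨r, rfl⟩ := Nat.exists_eq_add_of_le hj'
    rw [pow_add, Nat.add_sub_cancel_left, inv_pow t j]
    field_simp
  rw [h1]
  exact Subalgebra.smul_mem _ (Subalgebra.pow_mem _ inv_mem _) _

/-- every integral element over `K[t]` has a pole of finite order at infinity -/
theorem exists_DD (ht : t ≠ 0) {y : F} (hy : IsIntegral (Algebra.adjoin K ({t} : Set F)) y) :
    ∃ n, DD K t y n := by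
  classical
  obtain ⟨p, hp, hpy⟩ := hy
  have hq0 : ∀ x ∈ Algebra.adjoin K ({t} : Set F), ∃ q : K[X], aeval t q = x := by
    intro x hx
    rw [Algebra.adjoin_singleton_eq_range_aeval] at hx
    exact hx
  have hq : ∀ i, ∃ q : K[X], aeval t q = (p.coeff i : F) := fun i => hq0 _ (p.coeff i).2
  choose q hq using hq
  set n := (Finset.range (p.natDegree + 1)).sup fun i => (q i).natDegree with hn
  refine ⟨n, ?_⟩
  set P : F[X] := p.map (algebraMap (Algebra.adjoin K ({t} : Set F)) F) with hP
  have hPm : P.Monic := hp.map _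
  have hPd : P.natDegree = p.natDegree := hp.natDegree_map _
  have hPy : aeval y P = 0 := by
    rw [hP, aeval_def, eval₂_map]
    simpa using hpy
  have hQm : (P.scaleRoots ((t⁻¹) ^ n)).Monic := (monic_scaleRoots_iff _).2 hPm
  have hQy : aeval ((t⁻¹) ^ n * y) (P.scaleRoots ((t⁻¹) ^ n)) = 0 := by
    have := scaleRoots_aeval_eq_zero (r := (t⁻¹) ^ n) hPy
    simpa using this
  have hl : P.scaleRoots ((t⁻¹) ^ n) ∈
      lifts (algebraMap (Algebra.adjoin K ({t⁻¹} : Set F)) F) := by
    rw [lifts_iff_coeff_lifts]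
    intro i
    suffices h : (P.scaleRoots ((t⁻¹) ^ n)).coeff i ∈ Algebra.adjoin K ({t⁻¹} : Set F) from
      ⟨⟨_, h⟩, rfl⟩
    rw [coeff_scaleRoots, hPd]
    rcases lt_trichotomy i p.natDegree with h | h | h
    · have h1 : P.coeff i = aeval t (q i) := by
        rw [hq i, hP, coeff_map]
        rfl
      rw [h1, ← pow_mul]
      apply poly_inv_mem ht
      have h2 : (q i).natDegree ≤ n :=
        Finset.le_sup (f := fun i => (q i).natDegree) (Finset.mem_range.2 (by omega))
      refine h2.trans ?_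
      exact Nat.le_mul_of_pos_right _ (by omega)
    · rw [h, Nat.sub_self, pow_zero, mul_one, ← hPd, hPm.coeff_natDegree]
      exact Subalgebra.one_mem _
    · rw [coeff_eq_zero_of_natDegree_lt (by rw [hPd]; exact h), zero_mul]
      exact Subalgebra.zero_mem _
  obtain ⟨r, hr1, -, hr3⟩ := lifts_and_natDegree_eq_and_monic hl hQm
  refine ⟨r, hr3, ?_⟩
  rw [← eval_map, hr1]
  simpa [aeval_def, eval₂_eq_eval_map] using hQy

/-- replacing one element of a basis -/
theorem RB.update {N : ℕ} {e : Fin N → F} (h : RB K t N e) (i₀ : Fin N) (d : Fin N → K[X])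
    {l : K} (hl : l ≠ 0) (hd : d i₀ = C l) :
    RB K t N (Function.update e i₀ (∑ i, aeval t (d i) * e i)) := by
  classical
  set z := ∑ i, aeval t (d i) * e i with hz
  have hzi : IsIntegral (Algebra.adjoin K ({t} : Set F)) z :=
    IsIntegral.sum _ fun i _ => (int_mem (aeval_mem (d i))).mul (h.int i)
  have key : ∀ c : Fin N → K[X], ∑ i, aeval t (c i) * Function.update e i₀ z i =
      ∑ i, aeval t (c i + c i₀ * d i - if i = i₀ then c i₀ else 0) * e i := by
    intro c
    have h1 : ∀ i, aeval t (c i) * Function.update e i₀ z i =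
        aeval t (c i) * e i + (if i = i₀ then aeval t (c i₀) * (z - e i₀) else 0) := by
      intro i
      by_cases hi : i = i₀
      · subst hi
        rw [Function.update_self, if_pos rfl]
        ring
      · rw [Function.update_of_ne hi, if_neg hi, add_zero]
    have h2 : ∀ i, aeval t (c i + c i₀ * d i - if i = i₀ then c i₀ else 0) * e i =
        aeval t (c i) * e i + aeval t (c i₀) * (aeval t (d i) * e i) -
          (if i = i₀ then aeval t (c i₀) * e i₀ else 0) := by
      intro i
      by_cases hi : i = i₀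
      · subst hi
        rw [if_pos rfl, if_pos rfl, map_sub, map_add, map_mul]
        ring
      · rw [if_neg hi, if_neg hi, sub_zero, sub_zero, map_add, map_mul]
        ring
    rw [Finset.sum_congr rfl fun i _ => h1 i, Finset.sum_congr rfl fun i _ => h2 i,
      Finset.sum_add_distrib, Finset.sum_sub_distrib, Finset.sum_add_distrib, ← Finset.mul_sum,
      ← hz, Finset.sum_ite_eq', Finset.sum_ite_eq', if_pos (Finset.mem_univ _),
      if_pos (Finset.mem_univ _)]
    ring
  refine ⟨fun i => ?_, fun y hy => ?_, fun c hc => ?_⟩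
  · by_cases hi : i = i₀
    · subst hi
      rw [Function.update_self]
      exact hzi
    · rw [Function.update_of_ne hi]
      exact h.int i
  · obtain ⟨c, hc⟩ := h.span y hy
    refine ⟨fun i => if i = i₀ then C l⁻¹ * c i₀ else c i - C l⁻¹ * c i₀ * d i, ?_⟩
    rw [key, hc]
    refine Finset.sum_congr rfl fun i _ => ?_
    congr 2
    by_cases hi : i = i₀
    · subst hi
      simp only [if_true]
      rw [hd]
      have h1 : C l⁻¹ * c i * C l = c i := by
        rw [mul_right_comm, ← C_mul, inv_mul_cancel₀ hl, C_1, one_mul]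
      rw [h1]
      ring
    · simp only [if_neg hi, if_true]
      ring
  · rw [key] at hc
    have h1 := h.li _ hc
    have h2 : c i₀ = 0 := by
      have h3 := congrFun h1 i₀
      simp only [if_true, hd, Pi.zero_apply] at h3
      have h4 : c i₀ * C l = 0 := by linear_combination h3
      rcases mul_eq_zero.1 h4 with h5 | h5
      · exact h5
      · exact absurd (C_eq_zero.1 h5) hl
    funext i
    have h3 := congrFun h1 i
    simp only [h2, zero_mul, add_zero, ite_self, sub_zero, Pi.zero_apply] at h3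
    exact h3

end

theorem t_P1R : S_P1R.{u} := by
  classical
  intro hK K F _ _ _ _ t ht hfd N e₀ h₀
  have ht0 : t ≠ 0 := by
    rintro rfl
    exact ht isAlgebraic_zero
  have hex : ∃ s : ℕ, ∃ (e : Fin N → F) (a : Fin N → ℕ), RB K t N e ∧
      (∀ i, DD K t (e i) (a i)) ∧ ∑ i, a i = s := by
    choose a ha using fun i => exists_DD ht0 (h₀.int i)
    exact ⟨_, e₀, a, h₀, ha, rfl⟩
  obtain ⟨e, a, he, ha, hs⟩ := Nat.find_spec hex
  refine ⟨e, a, he, ha, fun c n hn => ?_⟩
  by_contra hcon
  push Not at hcon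
  obtain ⟨j, hj, hjn⟩ := hcon
  -- the maximal degree
  obtain ⟨i₁, hi₁, hmax⟩ := Finset.exists_max_image (Finset.univ.filter fun i => c i ≠ 0)
    (fun i => (c i).natDegree + a i) ⟨j, Finset.mem_filter.2 ⟨Finset.mem_univ _, hj⟩⟩
  set m := (c i₁).natDegree + a i₁ with hm
  have hmax' : ∀ i, c i ≠ 0 → (c i).natDegree + a i ≤ m := fun i hi =>
    hmax i (Finset.mem_filter.2 ⟨Finset.mem_univ _, hi⟩)
  have hnm : n < m := lt_of_lt_of_le hjn (hmax' j hj)
  obtain ⟨i₀, hi₀, hmaxa⟩ := Finset.exists_max_image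
    (Finset.univ.filter fun i => c i ≠ 0 ∧ (c i).natDegree + a i = m) a
    ⟨i₁, Finset.mem_filter.2 ⟨Finset.mem_univ _, (Finset.mem_filter.1 hi₁).2, rfl⟩⟩
  have hi₀' := (Finset.mem_filter.1 hi₀).2
  have hmaxa' : ∀ i, c i ≠ 0 → (c i).natDegree + a i = m → a i ≤ a i₀ := fun i h1 h2 =>
    hmaxa i (Finset.mem_filter.2 ⟨Finset.mem_univ _, h1, h2⟩)
  set d : Fin N → K[X] := fun i => if c i ≠ 0 ∧ (c i).natDegree + a i = m then
    C (c i).leadingCoeff * X ^ (a i₀ - a i) else 0 with hd
  have hd0 : d i₀ = C (c i₀).leadingCoeff := by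
    simp only [hd]
    rw [if_pos hi₀', Nat.sub_self, pow_zero, mul_one]
  have hl0 : (c i₀).leadingCoeff ≠ 0 := leadingCoeff_ne_zero.2 hi₀'.1
  set z := ∑ i, aeval t (d i) * e i with hz
  have hzi : IsIntegral (Algebra.adjoin K ({t} : Set F)) z :=
    IsIntegral.sum _ fun i _ => (int_mem (aeval_mem (d i))).mul (he.int i)
  have hz0 : z ≠ 0 := by
    intro h
    have h1 := congrFun (he.li d h) i₀
    rw [hd0, Pi.zero_apply] at h1
    exact hl0 (C_eq_zero.1 h1)
  have ham : a i₀ ≤ m := by omega
  -- the part of smaller degree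
  have hlow : DD K t (∑ i, aeval t (c i - X ^ (m - a i₀) * d i) * e i) (m - 1) := by
    refine DD.sum _ _ fun i _ => (ha i).poly ht0 _ fun j hj => ?_
    by_cases hi : c i ≠ 0 ∧ (c i).natDegree + a i = m
    · have h1 : c i - X ^ (m - a i₀) * d i = (c i).eraseLead := by
        have h2 : X ^ (m - a i₀) * d i = C (c i).leadingCoeff * X ^ (c i).natDegree := by
          simp only [hd]
          rw [if_pos hi]
          have h3 := hmaxa' i hi.1 hi.2
          have h4 : (c i).natDegree = (m - a i₀) + (a i₀ - a i) := by omega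
          rw [h4, pow_add]
          ring
        rw [h2, sub_eq_iff_eq_add]
        exact (eraseLead_add_C_mul_X_pow (c i)).symm
      rw [h1] at hj
      have := lt_natDegree_of_mem_eraseLead_support hj
      omega
    · have h1 : d i = 0 := by
        simp only [hd]
        rw [if_neg hi]
      rw [h1, mul_zero, sub_zero] at hj
      have hci : c i ≠ 0 := by
        intro h
        rw [h] at hj
        simp at hj
      have h2 := hmax' i hci
      have h3 : (c i).natDegree + a i ≠ m := fun h => hi ⟨hci, h⟩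
      have h4 := le_natDegree_of_mem_supp j hj
      omega
  have hsplit : ∑ i, aeval t (c i) * e i = t ^ (m - a i₀) * z +
      ∑ i, aeval t (c i - X ^ (m - a i₀) * d i) * e i := by
    rw [hz, Finset.mul_sum, ← Finset.sum_add_distrib]
    refine Finset.sum_congr rfl fun i _ => ?_
    rw [map_sub, map_mul, map_pow, aeval_X]
    ring
  have hw : DD K t (t ^ (m - a i₀) * z) (m - 1) := by
    have h1 : t ^ (m - a i₀) * z = ∑ i, aeval t (c i) * e i -
        ∑ i, aeval t (c i - X ^ (m - a i₀) * d i) * e i := by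
      rw [hsplit]
      ring
    rw [h1]
    exact (DD.mono hn (by omega)).sub hlow
  rcases Nat.eq_zero_or_pos (a i₀) with h0 | h0
  · -- both `z` and `t z` are constants
    have h1 : IsIntegral (Algebra.adjoin K ({t⁻¹} : Set F)) (t * z) := by
      have h2 : (t⁻¹) ^ (m - 1) * (t ^ (m - a i₀) * z) = t * z := by
        rw [h0, Nat.sub_zero]
        obtain ⟨r, hr⟩ : ∃ r, m = r + 1 := ⟨m - 1, by omega⟩
        rw [hr, Nat.add_sub_cancel, pow_succ, inv_pow]
        field_simp
      rw [← h2]
      exact hw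
    have h2 : IsIntegral (Algebra.adjoin K ({t⁻¹} : Set F)) z := by
      have h3 : z = t⁻¹ * (t * z) := by
        field_simp
      rw [h3]
      exact (int_mem inv_mem).mul h1
    obtain ⟨u, hu⟩ := hK K F t ht hfd z hzi h2
    obtain ⟨v, hv⟩ := hK K F t ht hfd (t * z) ((int_mem self_mem).mul hzi) h1
    apply ht
    have h3 : t = algebraMap K F (v / u) := by
      rw [map_div₀, hu, hv]
      field_simp
    rw [h3]
    exact isAlgebraic_algebraMap _
  · have h1 : DD K t z (a i₀ - 1) := by
      have h2 : (t⁻¹) ^ (m - 1) * (t ^ (m - a i₀) * z) = (t⁻¹) ^ (a i₀ - 1) * z := by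
        have h3 : m - 1 = (m - a i₀) + (a i₀ - 1) := by omega
        rw [h3, pow_add, inv_pow t (m - a i₀)]
        field_simp
      unfold DD at hw ⊢
      rw [← h2]
      exact hw
    have h2 := Nat.find_min' hex ⟨Function.update e i₀ z, Function.update a i₀ (a i₀ - 1),
      RB.update he i₀ d hl0 hd0, fun i => by
        by_cases hi : i = i₀
        · subst hi
          rw [Function.update_self, Function.update_self]
          exact h1
        · rw [Function.update_of_ne hi, Function.update_of_ne hi]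
          exact ha i, rfl⟩
    rw [← hs] at h2
    have h3 : ∑ i, Function.update a i₀ (a i₀ - 1) i < ∑ i, a i := by
      refine Finset.sum_lt_sum (fun i _ => ?_) ⟨i₀, Finset.mem_univ _, ?_⟩
      · by_cases hi : i = i₀
        · subst hi
          rw [Function.update_self]
          omega
        · rw [Function.update_of_ne hi]
      · rw [Function.update_self]
        omega
    omega

end Pool.Agent.J6H33.BSV
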